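import Pool.Agent.Helper1.TE.Goals

/-!
# Tree evaluation (MP_8b4d68_lc), packet TE-CD: distances of the code
-/

set_option autoImplicit false

namespace Pool.Agent.Helper30.TE

open Pool.Agent.Helper65.LinSpace (dig tab dig_tab)
open Pool.Agent.Helper1.TE
open Finset

theorem bitc_lt (b a p i : ℕ) : bitc b a p i < 2 := Nat.mod_lt _ (by norm_num)

theorem sym_eq_tab (s b a p k : ℕ) :
    sym s b a p k = tab 2 s (fun t => bitc b a p (k * s + t)) := rfl

theorem sym_ne {s b a p q i : ℕ} (hs : 1 ≤ s) (h : bitc b a p i ≠ bitc b a q i) :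
    sym s b a p (i / s) ≠ sym s b a q (i / s) := by
  intro he
  apply h
  have hi : i / s * s + i % s = i := Nat.div_add_mod' i s
  have h1 := dig_tab (q := 2) (m := s) (d := fun t => bitc b a p (i / s * s + t))
    (fun t _ => bitc_lt _ _ _ _) (Nat.mod_lt i hs)
  have h2 := dig_tab (q := 2) (m := s) (d := fun t => bitc b a q (i / s * s + t))
    (fun t _ => bitc_lt _ _ _ _) (Nat.mod_lt i hs)
  rw [← sym_eq_tab] at h1 h2
  rw [he, h2] at h1
  simp only [hi] at h1
  exact h1.symm

theorem gCD : GoalCD := by
  intro hCL b a s p q hs _ hG hp hq hpq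
  have hr0 : 0 < p ^^^ q := Nat.pos_of_ne_zero (fun h => hpq (Nat.xor_eq_zero_iff.1 h))
  have hr : p ^^^ q < 2 ^ b := Nat.xor_lt_two_pow hp hq
  have hw := hG.2 _ hr0 hr
  set I := (range (4 * b)).filter (fun i => bitc b a p i ≠ bitc b a q i) with hI
  set J := (range ((4 * b + s - 1) / s)).filter (fun k => sym s b a p k ≠ sym s b a q k) with hJ
  have hwt : wt b a (p ^^^ q) = I.card := by
    unfold wt
    rw [hI, card_filter]
    refine sum_congr rfl fun i _ => ?_
    rw [hCL]
    have h1 := bitc_lt b a p i
    have h2 := bitc_lt b a q i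
    split_ifs with h
    · omega
    · omega
  have hmap : ∀ i ∈ I, i / s ∈ J := by
    intro i hi
    rw [hI, mem_filter, mem_range] at hi
    rw [hJ, mem_filter, mem_range]
    refine ⟨?_, sym_ne hs hi.2⟩
    have h3 : i / s ≤ (4 * b - 1) / s := Nat.div_le_div_right (by omega)
    have h4 : (4 * b + s - 1) / s = (4 * b - 1) / s + 1 := by
      rw [show 4 * b + s - 1 = (4 * b - 1) + s by omega, Nat.add_div_right _ hs]
    omega
  have hcard : I.card ≤ s * J.card := by
    refine card_le_mul_card_image_of_maps_to hmap s ?_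
    intro k _
    have h5 : I.filter (fun i => i / s = k) ⊆ (range s).image (fun t => k * s + t) := by
      intro i hi
      rw [mem_filter] at hi
      rw [mem_image]
      refine ⟨i % s, mem_range.2 (Nat.mod_lt _ hs), ?_⟩
      rw [← hi.2]
      exact Nat.div_add_mod' i s
    exact (card_le_card h5).trans (card_image_le.trans (by rw [card_range]))
  have hd : (J.card : ℤ) ≤ dst (sym s b a) ((4 * b + s - 1) / s) p q := by
    unfold dst
    rw [hJ, card_filter, Nat.cast_sum]
    refine sum_le_sum fun k _ => ?_
    split_ifs with h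
    · have h6 : ((sym s b a p k : ℤ) - sym s b a q k) ≠ 0 := by
        intro h7
        apply h
        have : (sym s b a p k : ℤ) = sym s b a q k := by linarith
        exact_mod_cast this
      have h8 : 0 < ((sym s b a p k : ℤ) - sym s b a q k) ^ 2 := by positivity
      push_cast
      exact h8
    · simpa using sq_nonneg ((sym s b a p k : ℤ) - sym s b a q k)
  refine le_trans ?_ hd
  have h9 : (b + 4 * s - 1) / (4 * s) ≤ J.card := by
    have h10 : b ≤ 4 * s * J.card := by
      rw [hwt] at hw
      calc b ≤ 4 * I.card := hw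
        _ ≤ 4 * (s * J.card) := by omega
        _ = 4 * s * J.card := by ring
    apply Nat.le_of_lt_succ
    rw [Nat.div_lt_iff_lt_mul (by omega)]
    have h11 : (J.card).succ * (4 * s) = 4 * s * J.card + 4 * s := by
      rw [Nat.succ_eq_add_one]
      ring
    omega
  exact_mod_cast h9

end Pool.Agent.Helper30.TE
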